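import Pool.Agent.H104.MZ.Stm

/-! JOB MZ-EXPD (helper278). -/

set_option autoImplicit false

open Polynomial Finset

namespace Pool.Agent.Q278.MZ

open Pool.Agent.H104.MZ

theorem act_add (n : ℕ → ℤ) (j : ℕ) (F G : ℂ[X]) : act n j (F + G) = act n j F + act n j G := by
  unfold act
  exact Polynomial.sum_add_index F G _ (fun i => by simp) (fun i a b => by ring)

theorem act_zero (n : ℕ → ℤ) (j : ℕ) : act n j 0 = 0 := by
  unfold act
  exact Polynomial.sum_zero_index _

theorem act_sum {ι : Type} (n : ℕ → ℤ) (j : ℕ) (s : Finset ι) (F : ι → ℂ[X]) :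
    act n j (∑ i ∈ s, F i) = ∑ i ∈ s, act n j (F i) := by
  classical
  induction s using Finset.induction_on with
  | empty => simp [act_zero]
  | insert a s ha ih => rw [Finset.sum_insert ha, Finset.sum_insert ha, act_add, ih]

theorem act_C_mul_X_pow (n : ℕ → ℤ) (j u : ℕ) (c : ℂ) :
    act n j (C c * X ^ u) = c * (n (j + u) : ℂ) := by
  unfold act
  rw [Polynomial.C_mul_X_pow_eq_monomial]
  exact Polynomial.sum_monomial_index _ _ (by simp)

theorem t_EXPD : S_EXPD := by
  intro n j Q E h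
  have h1 : ((X ^ Q - 1 : ℂ[X])) ^ E = ∑ t ∈ range (E + 1),
      C (((E.choose t : ℕ) : ℂ) * (-1) ^ (E - t)) * X ^ (Q * t) := by
    rw [sub_eq_add_neg, add_pow]
    refine Finset.sum_congr rfl fun t _ => ?_
    rw [← pow_mul]
    simp only [map_mul, map_pow, map_neg, map_one, map_natCast]
    ring
  rw [h1, act_sum] at h
  simp only [act_C_mul_X_pow] at h
  have h2 : ((∑ t ∈ range (E + 1), (-1 : ℤ) ^ t * ((E.choose t : ℕ) : ℤ) * n (j + Q * t) : ℤ) : ℂ)
      = 0 := by
    push_cast
    have h3 := congrArg (fun z => (-1 : ℂ) ^ E * z) h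
    simp only [mul_zero, Finset.mul_sum] at h3
    rw [← h3]
    refine Finset.sum_congr rfl fun t ht => ?_
    have ht' : t ≤ E := Nat.lt_succ_iff.1 (Finset.mem_range.1 ht)
    have h4 : (-1 : ℂ) ^ E * (-1) ^ (E - t) = (-1) ^ t := by
      have : (-1 : ℂ) ^ E = (-1) ^ t * (-1) ^ (E - t) := by
        rw [← pow_add]; congr 1; omega
      rw [this, mul_assoc, ← mul_pow]
      simp
    linear_combination (-(((E.choose t : ℕ) : ℂ) * (n (j + Q * t) : ℂ))) * h4
  exact_mod_cast h2

end Pool.Agent.Q278.MZ
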